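import Pool.Agent.Lib.Sm.H.Min

/-!
Project SMITH, block H: the functions `Th` (relation, existence).
-/

set_option autoImplicit false

open Finset

namespace Pool.Agent.Sm

section

variable {G V Pl I : Type*} [Group G] [AddCommGroup V] [DistribMulAction G V] [DecidableEq I]

/-- The relation of `Th : G → V1` for the face with directions `W`, `|W| = j + 1`. -/
def ThRel (S : Sys G V Pl) (j : ℕ) (del : I → G → ZMod 2) (Psi : Finset I → G → V)
    (W : Finset I) (Th : G → V1) : Prop :=
  ∀ s t, Th (s * t) = Th s + Th t +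
    ∑ T ∈ W.powerset.erase ∅, pdel del T s • PhiC S j Psi (W \ T) t

variable {S : Sys G V Pl}

omit [Group G] [DistribMulAction G V] in
/-- The alternating sum of lifts over a face of dimension at least `j + 1` is killed by `2`. -/
theorem two_alt_hat {W : Finset I} {j : ℕ} {Psi hat : Finset I → G → V} (h : Star W j Psi)
    {U P : Finset I} (hU : U ⊆ W) (hP : P ⊆ W) (hUP : Disjoint U P) (hj : j + 1 ≤ U.card)
    (h2 : ∀ T, T ⊆ W → ∀ s, (2 : ℕ) • hat T s = Psi T s) (s : G) :
    (2 : ℕ) • alt U (fun T => hat T s) P = 0 := by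
  rw [← alt_nsmul]
  have h1 := h U P hU hP hUP 0 (by omega) s
  rw [← h1]
  apply alt_congr
  intro T hT
  rw [h2 _ (Finset.union_subset hP (hT.trans hU)), pow_zero, one_smul]

/-- The alternating sum of the lifts over the face `W`, `|W| = j + 1`, satisfies the relation. -/
theorem om_rel (hS : S.Ok) {W : Finset I} {j : ℕ} (hW : W.card = j + 1)
    {chi0 : G → ZMod 2} {del : I → G → ZMod 2} {Psi hat : Finset I → G → V} (h : Star W j Psi)
    (hcoc : ∀ T, T ⊆ W → ∀ s t,
      hat T (s * t) = hat T s + tw (chiC chi0 del T) s (hat T t))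
    (h2 : ∀ T, T ⊆ W → ∀ s, (2 : ℕ) • hat T s = Psi T s) :
    ThRel S j del Psi W (fun s => S.un (alt W (fun T => hat T s) ∅)) := by
  have hiota : ∀ s, S.iota (S.un (alt W (fun T => hat T s) ∅)) = alt W (fun T => hat T s) ∅ :=
    fun s => Sys.iota_un hS (two_alt_hat h (Finset.Subset.refl W) (Finset.empty_subset _)
      (Finset.disjoint_empty_right _) (by omega) h2 s)
  intro s t
  apply hS.iota_inj
  rw [hiota, map_add, map_add, hiota, hiota]
  have h1 := alt_cocycle chi0 del hat s t W ∅ (Finset.disjoint_empty_right _) (by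
      intro T hT
      simp only [Finset.empty_union]
      exact hcoc T hT s t)
  rw [h1, add_assoc]
  congr 1
  have h3 : (∑ T ∈ W.powerset, (2 ^ T.card * (pdel del T s).val) •
      alt (W \ T) (fun Q => hat Q t) (∅ ∪ T)) =
      S.iota (S.un (alt W (fun T => hat T t) ∅)) +
      S.iota (∑ T ∈ W.powerset.erase ∅, pdel del T s • PhiC S j Psi (W \ T) t) := by
    rw [map_sum, hiota, ← Finset.add_sum_erase W.powerset _ (Finset.empty_mem_powerset W)]
    congr 1
    · simp [pdel_empty, show (1 : ZMod 2).val = 1 from rfl]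
    · apply Finset.sum_congr rfl
      intro T hT
      obtain ⟨hT0, hT1⟩ := Finset.mem_erase.1 hT
      have hTW : T ⊆ W := Finset.mem_powerset.1 hT1
      have hTpos : 0 < T.card := Finset.card_pos.2 (Finset.nonempty_iff_ne_empty.2 hT0)
      have hcard : (W \ T).card = W.card - T.card := Finset.card_sdiff_of_subset hTW
      have hle : T.card ≤ W.card := Finset.card_le_card hTW
      rw [iota_smul, iota_phiC_pos hS h Finset.sdiff_subset hTW Finset.sdiff_disjoint
        (by omega) t, Finset.empty_union, mul_comm, mul_smul, ← alt_nsmul]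
      congr 1
      apply alt_congr
      intro Q hQ
      have hQW : T ∪ Q ⊆ W := Finset.union_subset hTW (hQ.trans Finset.sdiff_subset)
      rw [← h2 _ hQW t, smul_smul, ← pow_succ]
      congr 2
      omega
  rw [h3, ← map_add, Sys.tw_iota hS, map_add, hiota]

/-- Two solutions of the relation differ by a homomorphism. -/
theorem ThRel.sub_hom {W : Finset I} {j : ℕ} {del : I → G → ZMod 2}
    {Psi : Finset I → G → V} {Th Th' : G → V1} (h : ThRel S j del Psi W Th)
    (h' : ThRel S j del Psi W Th') (s t : G) :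
    Th (s * t) - Th' (s * t) = (Th s - Th' s) + (Th t - Th' t) := by
  rw [h s t, h' s t]; abel

/-- Adding a homomorphism. -/
theorem ThRel.add_hom {W : Finset I} {j : ℕ} {del : I → G → ZMod 2}
    {Psi : Finset I → G → V} {Th c : G → V1} (h : ThRel S j del Psi W Th)
    (hc : ∀ s t, c (s * t) = c s + c t) : ThRel S j del Psi W (fun s => Th s - c s) := by
  intro s t
  simp only [h s t, hc s t]; abel

/-- Existence of `Th`, unramified at all finite places. -/
theorem exists_Th (hS : S.Ok) {W : Finset I} {j : ℕ} (hW : W.card = j + 1)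
    {chi0 : G → ZMod 2} {del : I → G → ZMod 2} {Psi hat : Finset I → G → V}
    (h0 : S.HomG chi0) (hd : ∀ i, S.HomG (del i)) (h : Star W j Psi)
    (htf : ∀ T, T ⊆ W → S.TF (hat T))
    (hcoc : ∀ T, T ⊆ W → ∀ s t,
      hat T (s * t) = hat T s + tw (chiC chi0 del T) s (hat T t))
    (h2 : ∀ T, T ⊆ W → ∀ s, (2 : ℕ) • hat T s = Psi T s) :
    ∃ Th : G → V1, S.TF Th ∧ ThRel S j del Psi W Th ∧ ∀ v, v ≠ S.inf → Th (S.sg v) = 0 := by
  classical
  set Om : G → V1 := fun s => S.un (alt W (fun T => hat T s) ∅) with hOm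
  have hrel : ThRel S j del Psi W Om := om_rel hS hW h hcoc h2
  have htfOm : S.TF Om := by
    apply Sys.TF.comp (f := fun s => alt W (fun T => hat T s) ∅) ?_ S.un
    apply tf_alt hS W ∅ hat
    intro T hT
    rw [Finset.empty_union]
    exact htf T hT
  have hone : Om 1 = 0 := by
    have e1 : alt W (fun T => hat T (1 : G)) ∅ = alt W (fun _ => (0 : V)) ∅ := by
      apply alt_congr
      intro T hT
      rw [Finset.empty_union]
      exact coc_one (chiC_hom hS h0 hd T).2 (hcoc T hT)
    change S.un (alt W (fun T => hat T (1 : G)) ∅) = 0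
    rw [e1, alt_zero]
    exact Sys.un_zero hS
  have hfin : {v | Om (S.sg v) ≠ 0}.Finite := by
    obtain ⟨N, hN, h3⟩ := htfOm
    refine (hS.unr N hN).subset fun v hv hm => hv ?_
    have := h3 1 _ hm
    rwa [one_mul, hone] at this
  obtain ⟨c, hc, hcv⟩ := hS.corr (fun v => Om (S.sg v)) hfin
  refine ⟨fun s => Om s - c s, htfOm.comp₂ hS hc.1 (fun a b => a - b), hrel.add_hom hc.2, ?_⟩
  intro v hv
  change Om (S.sg v) - c (S.sg v) = 0
  rw [hcv v hv, sub_self]

end

end Pool.Agent.Sm
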